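import Pool.Agent.Lib.MP_fabde4_an.All
import Pool.Agent.Lib.MP_fabde4_an.N.RxA

set_option autoImplicit false
open MeasureTheory Set Filter Topology
open scoped ContDiff Manifold

namespace Pool.Agent.Results.MP_fabde4_an.EveryZone

/-- Euclidean space -/
abbrev E3 : Type := EuclideanSpace ℝ (Fin 3)

/-- `r` is a local defining function of `Ω` on the open set `W`: it is smooth on `W`, `Ω ∩ W = {r < 0}`, and the
gradient of `r` does not vanish where `r = 0`. -/
structure IsDefining (Ω W : Set E3) (r : E3 → ℝ) : Prop where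
  isOpen : IsOpen W
  smooth : ContDiffOn ℝ ∞ r W
  neg : ∀ x ∈ W, (x ∈ Ω ↔ r x < 0)
  regular : ∀ x ∈ W, r x = 0 → gradient r x ≠ 0

/-- bounded connected open sets with smooth boundary -/
structure SmoothDomain (Ω : Set E3) : Prop where
  isOpen : IsOpen Ω
  connected : IsConnected Ω
  bounded : Bornology.IsBounded Ω
  boundary : ∀ x ∈ frontier Ω, ∃ W r, x ∈ W ∧ IsDefining Ω W r

/-- `n` is the outward unit normal at the boundary point `x` -/
def IsNormal (Ω : Set E3) (x n : E3) : Prop :=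
  ‖n‖ = 1 ∧ ∃ W r, x ∈ W ∧ IsDefining Ω W r ∧ ∃ c : ℝ, 0 < c ∧ gradient r x = c • n

/-- the divergence -/
noncomputable def div (w : E3 → E3) (x : E3) : ℝ :=
  ∑ i : Fin 3, fderiv ℝ w x (EuclideanSpace.single i 1) i

/-- admissible states: smooth on the closure of `Ω` (restriction of a smooth field), divergence free in `Ω`, and
tangential to the boundary -/
structure Admissible (Ω : Set E3) (w : E3 → E3) : Prop where
  smooth : ∃ g : E3 → E3, ContDiff ℝ ∞ g ∧ EqOn w g (closure Ω)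
  div_eq : ∀ x ∈ Ω, div w x = 0
  tangent : ∀ x ∈ frontier Ω, ∀ n, IsNormal Ω x n → inner ℝ (w x) n = 0

/-- controlled solutions of the Euler equations on `[0, T]` with control zone `Z` -/
structure Controlled (Ω Z : Set E3) (T : ℝ) (v : ℝ × E3 → E3) : Prop where
  smooth : ContDiff ℝ ∞ v
  euler : ∃ p : ℝ × E3 → ℝ, ContDiff ℝ ∞ p ∧ ∀ t ∈ Icc (0 : ℝ) T, ∀ x ∈ closure Ω,
    deriv (fun s => v (s, x)) t + fderiv ℝ (fun y => v (t, y)) x (v (t, x)) + gradient (fun y => p (t, y)) x = 0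
  div_eq : ∀ t ∈ Icc (0 : ℝ) T, ∀ x ∈ closure Ω, div (fun y => v (t, y)) x = 0
  tangent : ∀ t ∈ Icc (0 : ℝ) T, ∀ x ∈ frontier Ω \ Z, ∀ n, IsNormal Ω x n → inner ℝ (v (t, x)) n = 0

/-- approximate controllability in `L^q(Ω)` -/
def ApproxControllable (Ω Z : Set E3) (q : ENNReal) : Prop :=
  ∀ T : ℝ, 0 < T → ∀ v₀ v₁ : E3 → E3, Admissible Ω v₀ → Admissible Ω v₁ → ∀ ε : ℝ, 0 < ε →
    ∃ v : ℝ × E3 → E3, Controlled Ω Z T v ∧ (∀ x ∈ closure Ω, v (0, x) = v₀ x) ∧
      eLpNorm (fun x => v (T, x) - v₁ x) q (volume.restrict Ω) < ENNReal.ofReal ε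

section aux

/-- derivative along a ray -/
theorem ray {φ : E3 → ℝ} {x : E3} (hφ : DifferentiableAt ℝ φ x) (hx : φ x = 0) (v : E3) (c : ℝ)
    (hc : fderiv ℝ φ x v < c) : ∀ᶠ t : ℝ in 𝓝[>] 0, φ (x + t • v) < c * t := by
  have h1 : HasDerivAt (fun t : ℝ => φ (x + t • v)) (fderiv ℝ φ x v) 0 := by
    have h2 : HasFDerivAt φ (fderiv ℝ φ x) (x + (0 : ℝ) • v) := by simpa using hφ.hasFDerivAt
    have h3 : HasDerivAt (fun t : ℝ => x + t • v) v 0 := by
      simpa using ((hasDerivAt_id (0 : ℝ)).smul_const v).const_add x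
    exact h2.comp_hasDerivAt (0 : ℝ) h3
  have h4 := (hasDerivAt_iff_tendsto_slope.1 h1).eventually (eventually_lt_nhds hc)
  have h5 : ∀ᶠ t : ℝ in 𝓝[>] 0, slope (fun t : ℝ => φ (x + t • v)) 0 t < c :=
    h4.filter_mono (nhdsWithin_mono (0 : ℝ) fun t (ht : (0 : ℝ) < t) => ht.ne')
  filter_upwards [h5, self_mem_nhdsWithin] with t ht ht0
  have ht0 : (0 : ℝ) < t := ht0
  rw [slope_def_field] at ht
  simp only [zero_smul, add_zero, hx, sub_zero] at ht
  exact (div_lt_iff₀ ht0).1 ht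

theorem ray_tendsto (x v : E3) : Tendsto (fun t : ℝ => x + t • v) (𝓝[>] 0) (𝓝 x) := by
  have : Tendsto (fun t : ℝ => x + t • v) (𝓝 0) (𝓝 (x + (0 : ℝ) • v)) :=
    (continuous_const.add (continuous_id.smul continuous_const)).tendsto 0
  rw [zero_smul, add_zero] at this
  exact this.mono_left nhdsWithin_le_nhds

theorem grad_inner (f : E3 → ℝ) (x v : E3) : inner ℝ v (gradient f x) = fderiv ℝ f x v := by
  rw [real_inner_comm]
  unfold gradient
  rw [InnerProductSpace.toDual_symm_apply]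

theorem grad_ne {f : E3 → ℝ} {x : E3} : gradient f x ≠ 0 ↔ fderiv ℝ f x ≠ 0 := by
  unfold gradient
  simp

variable {Ω W : Set E3} {r : E3 → ℝ}

theorem IsDefining.diff (h : IsDefining Ω W r) {x : E3} (hx : x ∈ W) : DifferentiableAt ℝ r x :=
  (h.smooth.contDiffAt (h.isOpen.mem_nhds hx)).differentiableAt (by simp)

theorem IsDefining.zero (hΩ : IsOpen Ω) (h : IsDefining Ω W r) {x : E3} (hx : x ∈ W)
    (hf : x ∈ frontier Ω) : r x = 0 := by
  rw [frontier, hΩ.interior_eq] at hf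
  refine le_antisymm ?_ (not_lt.1 fun h1 => hf.2 ((h.neg x hx).2 h1))
  by_contra h2
  push Not at h2
  have h3 : ∀ᶠ y in 𝓝 x, 0 < r y ∧ y ∈ W :=
    ((h.diff hx).continuousAt.eventually (eventually_gt_nhds h2)).and (h.isOpen.mem_nhds hx)
  obtain ⟨y, hy, hy2⟩ := mem_closure_iff_nhds.1 hf.1 _ h3
  exact absurd ((h.neg y hy.2).1 hy2) (not_lt.2 hy.1.le)

theorem IsDefining.mem_closure (h : IsDefining Ω W r) {x : E3} (hx : x ∈ W) (h0 : r x = 0) :
    x ∈ closure Ω := by
  have h1 : fderiv ℝ r x (-(gradient r x)) < 0 := by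
    rw [map_neg, ← grad_inner, real_inner_self_eq_norm_sq]
    have := norm_pos_iff.2 (h.regular x hx h0)
    nlinarith
  have e := ray (h.diff hx) h0 _ _ h1
  refine mem_closure_iff_frequently.2 ((ray_tendsto x (-(gradient r x))).frequently ?_)
  refine Eventually.frequently ?_
  filter_upwards [e, (ray_tendsto x (-(gradient r x))).eventually (h.isOpen.mem_nhds hx)] with t h2 h3
  rw [zero_mul] at h2
  exact (h.neg _ h3).2 h2

/-- the differentials of two defining functions have the same kernel -/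
theorem ker_le (hΩ : IsOpen Ω) {W' : Set E3} {ρ : E3 → ℝ} (h : IsDefining Ω W r)
    (h' : IsDefining Ω W' ρ) {x : E3} (hx : x ∈ W) (hx' : x ∈ W') (hf : x ∈ frontier Ω) (u : E3)
    (hu : fderiv ℝ ρ x u = 0) : fderiv ℝ r x u = 0 := by
  have key : ∀ u, fderiv ℝ ρ x u = 0 → ¬ fderiv ℝ r x u < 0 := by
    intro u hu hneg
    obtain ⟨w, hw⟩ : ∃ w, fderiv ℝ ρ x w ≠ 0 := by
      by_contra hc
      push Not at hc
      exact (grad_ne.1 (h'.regular x hx' (h'.zero hΩ hx' hf))) (ContinuousLinearMap.ext hc)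
    -- `v = u - δ w'` with `ρ'(v) > 0` and `r'(v) < 0`
    obtain ⟨w, hw⟩ : ∃ w, fderiv ℝ ρ x w = 1 :=
      ⟨(fderiv ℝ ρ x w)⁻¹ • w, by rw [map_smul, smul_eq_mul, inv_mul_cancel₀ hw]⟩
    obtain ⟨δ, hδ, hδ2⟩ : ∃ δ : ℝ, 0 < δ ∧ fderiv ℝ r x u + δ * fderiv ℝ r x w < 0 := by
      have h1 : Tendsto (fun δ : ℝ => fderiv ℝ r x u + δ * fderiv ℝ r x w) (𝓝[>] 0)
          (𝓝 (fderiv ℝ r x u + 0 * fderiv ℝ r x w)) :=
        ((continuous_const.add (continuous_id.mul continuous_const)).tendsto 0).mono_left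
          nhdsWithin_le_nhds
      rw [zero_mul, add_zero] at h1
      obtain ⟨δ, hδ1, hδ2⟩ := ((h1.eventually (eventually_lt_nhds hneg)).and
        self_mem_nhdsWithin).exists
      exact ⟨δ, hδ2, hδ1⟩
    have h2 : fderiv ℝ r x (u + δ • w) < 0 := by
      rw [map_add, map_smul, smul_eq_mul]
      exact hδ2
    have h3 : fderiv ℝ (fun y => -ρ y) x (u + δ • w) < 0 := by
      rw [fderiv_fun_neg, neg_apply, map_add, map_smul, smul_eq_mul, hu, hw]
      linarith
    have e1 := ray (h.diff hx) (h.zero hΩ hx hf) _ _ h2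
    have e2 := ray (h'.diff hx').fun_neg (by rw [h'.zero hΩ hx' hf, neg_zero]) _ _ h3
    have e3 : ∀ᶠ t : ℝ in 𝓝[>] 0, x + t • (u + δ • w) ∈ W :=
      (ray_tendsto x (u + δ • w)).eventually (h.isOpen.mem_nhds hx)
    have e4 : ∀ᶠ t : ℝ in 𝓝[>] 0, x + t • (u + δ • w) ∈ W' :=
      (ray_tendsto x (u + δ • w)).eventually (h'.isOpen.mem_nhds hx')
    obtain ⟨t, ht1, ht2, ht3, ht4⟩ := (e1.and (e2.and (e3.and e4))).exists
    rw [zero_mul] at ht1 ht2
    have h4 := (h'.neg _ ht4).1 ((h.neg _ ht3).2 ht1)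
    linarith
  by_contra hne
  rcases lt_or_gt_of_ne hne with h1 | h1
  · exact key u hu h1
  · refine key (-u) (by rw [map_neg, hu, neg_zero]) ?_
    rw [map_neg]
    linarith

/-- a global defining function -/
theorem global (hΩ : IsOpen Ω) (hb : ∀ x ∈ frontier Ω, ∃ W r, x ∈ W ∧ IsDefining Ω W r) :
    ∃ ρ : E3 → ℝ, ContDiff ℝ ∞ ρ ∧ (∀ x, ρ x < 0 ↔ x ∈ Ω) ∧ (∀ x, ρ x = 0 ↔ x ∈ frontier Ω) ∧
      ∀ x, ρ x = 0 → fderiv ℝ ρ x ≠ 0 := by
  classical
  choose! W r hxW hWr using hb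
  let U : frontier Ω ⊕ Bool → Set E3 := Sum.elim (fun x => W x) (fun b => if b then Ω else (closure Ω)ᶜ)
  let F : frontier Ω ⊕ Bool → E3 → ℝ := Sum.elim (fun x => r x) (fun b _ => if b then -1 else 1)
  have hU : ∀ i, IsOpen (U i) := by
    rintro (x | b)
    · exact (hWr x x.2).isOpen
    · cases b
      · exact isClosed_closure.isOpen_compl
      · exact hΩ
  have hcov : (univ : Set E3) ⊆ ⋃ i, U i := by
    intro y _
    rw [mem_iUnion]
    by_cases h1 : y ∈ Ω
    · exact ⟨Sum.inr true, h1⟩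
    · by_cases h2 : y ∈ closure Ω
      · have h3 : y ∈ frontier Ω := by
          rw [frontier, hΩ.interior_eq]
          exact ⟨h2, h1⟩
        exact ⟨Sum.inl ⟨y, h3⟩, hxW y h3⟩
      · exact ⟨Sum.inr false, h2⟩
  obtain ⟨f, hf⟩ := SmoothPartitionOfUnity.exists_isSubordinate 𝓘(ℝ, E3) isClosed_univ U hU hcov
  have hFs : ∀ i, ∀ y ∈ tsupport (f i), ContDiffAt ℝ ∞ (F i) y := by
    rintro (x | b) y hy
    · exact (hWr x x.2).smooth.contDiffAt ((hU (Sum.inl x)).mem_nhds (hf _ hy))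
    · exact contDiffAt_const
  let ρ : E3 → ℝ := fun y => ∑ᶠ i, f i y • F i y
  have hρs : ContDiff ℝ ∞ ρ := by
    rw [← contMDiff_iff_contDiff]
    exact f.contMDiff_finsum_smul fun i y hy => (hFs i y hy).contMDiffAt
  have hfU : ∀ i y, f i y ≠ 0 → y ∈ U i := fun i y h => hf i (subset_tsupport _ h)
  have hfin : ∀ y, (Function.support fun i => f i y • F i y).Finite := fun y =>
    (f.locallyFinite.point_finite y).subset fun i hi h0 => hi (by
      change f i y • F i y = 0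
      rw [h0, zero_smul])
  -- signs of the terms
  have hΩin : ∀ y ∈ Ω, ∀ i, f i y ≠ 0 → F i y < 0 := by
    rintro y hy (x | b) hi
    · exact ((hWr x x.2).neg y (hfU _ y hi)).1 hy
    · cases b
      · exact absurd (subset_closure hy) (hfU _ y hi)
      · change (if true = true then (-1 : ℝ) else 1) < 0
        simp
  have hΩfr : ∀ y ∈ frontier Ω, ∀ i, f i y ≠ 0 → F i y = 0 := by
    rintro y hy (x | b) hi
    · exact (hWr x x.2).zero hΩ (hfU _ y hi) hy
    · cases b
      · exact absurd hy.1 (hfU _ y hi)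
      · exact absurd (hfU _ y hi) (by
          rw [frontier, hΩ.interior_eq] at hy
          exact hy.2)
  have hΩout : ∀ y, y ∉ closure Ω → ∀ i, f i y ≠ 0 → 0 < F i y := by
    rintro y hy (x | b) hi
    · have h1 : y ∈ W x := hfU _ y hi
      have h2 : ¬ (r x y < 0) := fun h => hy (subset_closure (((hWr x x.2).neg y h1).2 h))
      refine lt_of_le_of_ne (not_lt.1 h2) fun h3 => hy ?_
      exact (hWr x x.2).mem_closure h1 h3.symm
    · cases b
      · change 0 < (if false = true then (-1 : ℝ) else 1)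
        simp
      · exact absurd (subset_closure (hfU _ y hi)) hy
  have hex : ∀ y, ∃ i, 0 < f i y := fun y => f.exists_pos_of_mem (mem_univ y)
  have hneg : ∀ y ∈ Ω, ∀ i, f i y ≠ 0 → ρ y ≤ f i y * F i y := by
    intro y hy i hi
    have hmem : i ∈ (hfin y).toFinset := by
      rw [Set.Finite.mem_toFinset, Function.mem_support]
      exact smul_ne_zero hi (hΩin y hy i hi).ne
    change (∑ᶠ j, f j y • F j y) ≤ _
    rw [finsum_eq_sum_of_support_subset _ (s := (hfin y).toFinset) (by simp),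
      ← Finset.add_sum_erase _ _ hmem, smul_eq_mul]
    refine add_le_of_nonpos_right (Finset.sum_nonpos fun j _ => ?_)
    rw [smul_eq_mul]
    by_cases hj : f j y = 0
    · rw [hj, zero_mul]
    · exact mul_nonpos_of_nonneg_of_nonpos (f.nonneg j y) (hΩin y hy j hj).le
  have h1 : ∀ y ∈ Ω, ρ y < 0 := by
    intro y hy
    obtain ⟨i, hi⟩ := hex y
    exact (hneg y hy i hi.ne').trans_lt (mul_neg_of_pos_of_neg hi (hΩin y hy i hi.ne'))
  have h2 : ∀ y ∈ frontier Ω, ρ y = 0 := by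
    intro y hy
    refine finsum_eq_zero_of_forall_eq_zero fun i => ?_
    by_cases hi : f i y = 0
    · rw [hi, zero_smul]
    · rw [hΩfr y hy i hi, smul_zero]
  have h3 : ∀ y, y ∉ closure Ω → 0 < ρ y := by
    intro y hy
    obtain ⟨i, hi⟩ := hex y
    have hmem : i ∈ (hfin y).toFinset := by
      rw [Set.Finite.mem_toFinset, Function.mem_support]
      exact smul_ne_zero hi.ne' (hΩout y hy i hi.ne').ne'
    change 0 < (∑ᶠ j, f j y • F j y)
    rw [finsum_eq_sum_of_support_subset _ (s := (hfin y).toFinset) (by simp)]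
    refine Finset.sum_pos' (fun j _ => ?_) ⟨i, hmem, ?_⟩
    · rw [smul_eq_mul]
      by_cases hj : f j y = 0
      · rw [hj, zero_mul]
      · exact mul_nonneg (f.nonneg j y) (hΩout y hy j hj).le
    · rw [smul_eq_mul]
      exact mul_pos hi (hΩout y hy i hi.ne')
  have hcase : ∀ y, y ∈ Ω ∨ y ∈ frontier Ω ∨ y ∉ closure Ω := by
    intro y
    rw [frontier, hΩ.interior_eq, Set.mem_sdiff]
    tauto
  have h4 : ∀ y, ρ y = 0 ↔ y ∈ frontier Ω := by
    intro y
    refine ⟨fun h => ?_, h2 y⟩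
    rcases hcase y with hy | hy | hy
    · exact absurd h (h1 y hy).ne
    · exact hy
    · exact absurd h (h3 y hy).ne'
  refine ⟨ρ, hρs, fun y => ⟨fun h => ?_, h1 y⟩, h4, fun x hx h0 => ?_⟩
  · rcases hcase y with hy | hy | hy
    · exact hy
    · exact absurd (h2 y hy) h.ne
    · exact absurd (h3 y hy) (not_lt.2 h.le)
  · have hxf := (h4 x).1 hx
    obtain ⟨i, hi⟩ := hex x
    rcases i with z | b
    · have hW := hWr z z.2
      have hxz : x ∈ W z := hfU _ x hi.ne'
      have hr0 : r z x = 0 := hW.zero hΩ hxz hxf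
      have hv : fderiv ℝ (r z) x (-(gradient (r z) x)) < 0 := by
        rw [map_neg, ← grad_inner, real_inner_self_eq_norm_sq]
        have := norm_pos_iff.2 (hW.regular x hxz hr0)
        nlinarith
      set v := -(gradient (r z) x) with hvdef
      set a : ℝ := -(fderiv ℝ (r z) x v) / 2 with ha
      have ha0 : 0 < a := by rw [ha]; linarith
      have e1 := ray (hW.diff hxz) hr0 v (-a) (by rw [ha]; linarith)
      have hρd : DifferentiableAt ℝ ρ x := (hρs.differentiable (by simp)).differentiableAt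
      have e2 := ray hρd.fun_neg (by rw [hx, neg_zero]) v (f (Sum.inl z) x / 2 * a) (by
        rw [fderiv_fun_neg, neg_apply, h0, zero_apply, neg_zero]
        positivity)
      have e3 : ∀ᶠ t : ℝ in 𝓝[>] 0, f (Sum.inl z) x / 2 < f (Sum.inl z) (x + t • v) :=
        (ray_tendsto x v).eventually ((f (Sum.inl z)).contMDiff.continuous.continuousAt.eventually
          (eventually_gt_nhds (by linarith)))
      have e4 : ∀ᶠ t : ℝ in 𝓝[>] 0, x + t • v ∈ W z :=
        (ray_tendsto x v).eventually (hW.isOpen.mem_nhds hxz)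
      obtain ⟨t, ht1, ht2, ht3, ht4, ht5⟩ :=
        (e1.and (e2.and (e3.and (e4.and self_mem_nhdsWithin)))).exists
      have ht5 : (0 : ℝ) < t := ht5
      have h5 : r z (x + t • v) < 0 := ht1.trans (by nlinarith)
      have h6 : x + t • v ∈ Ω := (hW.neg _ ht4).2 h5
      have h7 : ρ (x + t • v) ≤ f (Sum.inl z) (x + t • v) * r z (x + t • v) :=
        hneg _ h6 (Sum.inl z) (by linarith)
      have h8 : f (Sum.inl z) (x + t • v) * r z (x + t • v) ≤ f (Sum.inl z) x / 2 * (-a * t) := by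
        have h9 : f (Sum.inl z) (x + t • v) * r z (x + t • v) ≤
            f (Sum.inl z) x / 2 * r z (x + t • v) := mul_le_mul_of_nonpos_right ht3.le h5.le
        exact h9.trans (mul_le_mul_of_nonneg_left ht1.le (by linarith))
      nlinarith
    · have := hfU _ x hi.ne'
      cases b
      · exact this hxf.1
      · rw [frontier, hΩ.interior_eq] at hxf
        exact hxf.2 this

end aux

/-- Every nonempty relatively open control zone on the boundary of every smooth bounded domain gives approximate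
controllability, with smooth solutions, in `L^q` for all finite `q`. -/
theorem result : ∀ Ω : Set E3, SmoothDomain Ω → ∀ Z : Set E3, Z ⊆ frontier Ω → Z.Nonempty →
    (∃ U : Set E3, IsOpen U ∧ Z = U ∩ frontier Ω) → ∀ q : ENNReal, 1 ≤ q → q ≠ ⊤ →
    ApproxControllable Ω Z q := by
  intro Ω hΩ Z _ hZne hZU q hq hq' T hT v₀ v₁ h0 h1 ε hε
  obtain ⟨U, hU, rfl⟩ := hZU
  obtain ⟨ρ, hρ, hneg, hzero, hreg⟩ := global hΩ.isOpen hΩ.boundary
  have hD : MPfab.D ρ = Ω := by
    ext x
    exact hneg x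
  have hdom : MPfab.Dom ρ := ⟨hρ, by rw [hD]; exact hΩ.bounded, hreg⟩
  have hdef : IsDefining Ω univ ρ :=
    ⟨isOpen_univ, hρ.contDiffOn, fun x _ => (hneg x).symm, fun x _ hx => grad_ne.2 (hreg x hx)⟩
  have hcl : ∀ x, x ∈ closure Ω ↔ ρ x ≤ 0 := by
    intro x
    rw [le_iff_lt_or_eq, hneg, hzero, closure_eq_self_union_frontier]
    rfl
  have hX : ∀ w g : E3 → E3, ContDiff ℝ ∞ g → EqOn w g (closure Ω) → Admissible Ω w →
      MPfab.InX ρ g := by
    intro w g hg hwg hw
    refine ⟨hg, fun x hx => ?_, fun x hx => ?_⟩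
    · have hc : Continuous (MPfab.dv g) := by
        unfold MPfab.dv
        refine continuous_finsetSum _ fun i _ => ?_
        exact ((MPfab.Sm.pd hg i).comp_apply i).continuous
      have hset : IsClosed {x | MPfab.dv g x = 0} := isClosed_eq hc continuous_const
      have hsub : Ω ⊆ {x | MPfab.dv g x = 0} := by
        intro y hy
        have e : w =ᶠ[𝓝 y] g := by
          filter_upwards [hΩ.isOpen.mem_nhds hy] with z hz
          exact hwg (subset_closure hz)
        have := hw.div_eq y hy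
        unfold div at this
        rw [e.fderiv_eq] at this
        exact this
      exact closure_minimal hsub hset ((hcl x).2 hx)
    · have hf := (hzero x).1 hx
      have hn : gradient ρ x ≠ 0 := grad_ne.2 (hreg x hx)
      have hn' : 0 < ‖gradient ρ x‖ := norm_pos_iff.2 hn
      have h2 := hw.tangent x hf (‖gradient ρ x‖⁻¹ • gradient ρ x)
        ⟨by rw [norm_smul, norm_inv, norm_norm, inv_mul_cancel₀ hn'.ne'], univ, ρ, mem_univ x, hdef,
          ‖gradient ρ x‖, hn', by rw [smul_smul, mul_inv_cancel₀ hn'.ne', one_smul]⟩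
      rw [inner_smul_right, hwg ((hcl x).2 hx.le)] at h2
      rcases mul_eq_zero.1 h2 with h3 | h3
      · exact absurd h3 (inv_ne_zero hn'.ne')
      · rwa [grad_inner] at h3
  obtain ⟨g0, hg0, he0⟩ := h0.smooth
  obtain ⟨g1, hg1, he1⟩ := h1.smooth
  obtain ⟨x0, hx0⟩ := hZne
  obtain ⟨V, Pr, hV, hPr, c1, c2, c3, c4, c5⟩ := MPfab.main0 MPfab.allNormal MPfab.allDom2
    MPfab.allLeray MPfab.allRelax MPfab.allLast MPfab.allRealize MPfab.allFinal MPfab.allFlowA
    MPfab.allCTan MPfab.allBrkT ρ hdom (by rw [hD]; exact hΩ.connected) U hU x0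
    ((hzero x0).2 hx0.2) hx0.1 T hT g0 g1 (hX v₀ g0 hg0 he0 h0) (hX v₁ g1 hg1 he1 h1) q hq hq' ε hε
  refine ⟨V, ⟨hV, ⟨Pr, hPr, fun t ht x hx => ?_⟩, fun t ht x hx => ?_, fun t ht x hx n hn => ?_⟩,
    fun x hx => ?_, ?_⟩
  · rw [MPfab.gradient_eq]
    exact c1 t x ht.1 ht.2 ((hcl x).1 hx)
  · exact c2 t x ht.1 ht.2 ((hcl x).1 hx)
  · obtain ⟨-, W, r, hxW, hr, c, hc, hgr⟩ := hn
    have h2 : fderiv ℝ ρ x (V (t, x)) = 0 :=
      c3 t x ht.1 ht.2 ((hzero x).2 hx.1) fun hxU => hx.2 ⟨hxU, hx.1⟩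
    have h3 := ker_le hΩ.isOpen hr hdef hxW (mem_univ x) hx.1 _ h2
    rw [← grad_inner, hgr, inner_smul_right] at h3
    exact (mul_eq_zero.1 h3).resolve_left hc.ne'
  · rw [c4 x ((hcl x).1 hx), he0 hx]
  · rw [hD] at c5
    refine lt_of_eq_of_lt (eLpNorm_congr_ae ?_) c5
    filter_upwards [ae_restrict_mem hΩ.isOpen.measurableSet] with x hx
    rw [he1 (subset_closure hx)]

end Pool.Agent.Results.MP_fabde4_an.EveryZone
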